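import Pool.Agent.Y811.PC.Stm6

/-!
# Area and inradius of thin sets
-/

set_option autoImplicit false

namespace Pool.Agent.Y151.PC

open Complex Metric Set Filter Topology MeasureTheory Pool.Agent.Y811.PC

/-- area of a rectangle -/
theorem volume_box (a b : ℝ) (ha : 0 ≤ a) :
    volume {w : ℂ | |w.re| ≤ a ∧ |w.im| ≤ b} ≤ ENNReal.ofReal (4 * (a * b)) := by
  have h1 : {w : ℂ | |w.re| ≤ a ∧ |w.im| ≤ b} =
      measurableEquivRealProd ⁻¹' (Icc (-a) a ×ˢ Icc (-b) b) := by
    ext w
    rw [mem_preimage, mem_prod, measurableEquivRealProd_apply, mem_Icc, mem_Icc, ← abs_le,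
      ← abs_le]
    rfl
  rw [h1, (volume_preserving_equiv_real_prod).measure_preimage
    (measurableSet_Icc.prod measurableSet_Icc).nullMeasurableSet, Measure.volume_eq_prod,
    Measure.prod_prod, Real.volume_Icc, Real.volume_Icc, ← ENNReal.ofReal_mul (by linarith)]
  apply ENNReal.ofReal_le_ofReal
  apply le_of_eq
  ring

/-- rotations preserve the area -/
theorem volume_rot (u : Circle) (c₀ : ℂ) (B : Set ℂ) (hB : MeasurableSet B) :
    volume ((fun c : ℂ => (u : ℂ) * (c - c₀)) ⁻¹' B) = volume B := by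
  have h1 : MeasurePreserving (rotation u) (volume : Measure ℂ) volume :=
    (rotation u).measurePreserving
  have h2 : MeasurePreserving (fun c : ℂ => c - c₀) volume volume :=
    measurePreserving_sub_right volume c₀
  have h3 := h1.comp h2
  have h4 : (rotation u ∘ fun c : ℂ => c - c₀) = fun c : ℂ => (u : ℂ) * (c - c₀) := by
    funext c
    rw [Function.comp_apply, rotation_apply]
  rw [h4] at h3
  exact h3.measure_preimage hB.nullMeasurableSet

theorem t_STRIP : S_STRIP := by
  intro κ c₀ K e ε S E hκ he hK hε hE hbd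
  have hκn : 0 < ‖κ‖ := norm_pos_iff.2 hκ
  refine ⟨4 * (K / ‖κ‖), ε, by positivity, hε, ?_⟩
  intro r hr hrε
  have hre : 0 < r ^ e := Real.rpow_pos_of_pos hr e
  have hkey : ∀ c ∈ ball c₀ r, c ∈ S → c ∉ E → |(κ * (c - c₀)).re| ≤ K * r ^ e := by
    intro c hc hS hcE
    have hcn : ‖c - c₀‖ < r := by rwa [mem_ball, dist_eq_norm] at hc
    refine (hbd c (ball_subset_ball hrε.le hc) hS hcE).trans ?_
    exact mul_le_mul_of_nonneg_left (Real.rpow_le_rpow (norm_nonneg _) hcn.le (by linarith)) hK.le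
  constructor
  · -- area
    obtain ⟨u, hu⟩ : ∃ u : Circle, (u : ℂ) = κ / ‖κ‖ := by
      refine ⟨⟨κ / ‖κ‖, mem_sphere_zero_iff_norm.2 ?_⟩, rfl⟩
      rw [norm_div, Complex.norm_real, norm_norm, div_self hκn.ne']
    have hsub : ball c₀ r ∩ S ⊆ E ∪ (fun c : ℂ => (u : ℂ) * (c - c₀)) ⁻¹'
        {w : ℂ | |w.re| ≤ K / ‖κ‖ * r ^ e ∧ |w.im| ≤ r} := by
      rintro c ⟨hc, hS⟩
      by_cases hcE : c ∈ E
      · exact Or.inl hcE
      · right
        have h1 := hkey c hc hS hcE
        have hcn : ‖c - c₀‖ < r := by rwa [mem_ball, dist_eq_norm] at hc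
        have e1 : (u : ℂ) * (c - c₀) = (κ * (c - c₀)) / (‖κ‖ : ℝ) := by
          rw [hu]
          ring
        constructor
        · show |((u : ℂ) * (c - c₀)).re| ≤ K / ‖κ‖ * r ^ e
          rw [e1, div_ofReal_re, abs_div, abs_norm, div_le_iff₀ hκn]
          calc |(κ * (c - c₀)).re| ≤ K * r ^ e := h1
            _ = K / ‖κ‖ * r ^ e * ‖κ‖ := by field_simp
        · show |((u : ℂ) * (c - c₀)).im| ≤ r
          refine (abs_im_le_norm _).trans ?_
          rw [norm_mul, Circle.norm_coe, one_mul]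
          exact hcn.le
    refine (measure_mono hsub).trans ((measure_union_le _ _).trans ?_)
    have hmeas : MeasurableSet {w : ℂ | |w.re| ≤ K / ‖κ‖ * r ^ e ∧ |w.im| ≤ r} := by
      apply IsClosed.measurableSet
      exact (isClosed_le (continuous_re.abs) continuous_const).inter
        (isClosed_le (continuous_im.abs) continuous_const)
    rw [hE.measure_zero, zero_add, volume_rot u c₀ _ hmeas]
    refine (volume_box _ r (by positivity)).trans (le_of_eq ?_)
    congr 1
    rw [Real.rpow_add hr, Real.rpow_one]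
    ring
  · intro c₁ s hs
    rcases le_or_gt s 0 with h0 | h0
    · exact h0.trans (by positivity)
    have hall : ∀ c ∈ ball c₁ s, |(κ * (c - c₀)).re| ≤ K * r ^ e := by
      have hd : Dense (Eᶜ : Set ℂ) := hE.countable.dense_compl ℝ
      have h1 := hd.open_subset_closure_inter (isOpen_ball (x := c₁) (ε := s))
      have hcl : IsClosed {c : ℂ | |(κ * (c - c₀)).re| ≤ K * r ^ e} :=
        isClosed_le (by fun_prop) continuous_const
      have h2 : closure (ball c₁ s ∩ Eᶜ) ⊆ {c : ℂ | |(κ * (c - c₀)).re| ≤ K * r ^ e} := by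
        apply closure_minimal _ hcl
        rintro c ⟨hc, hcE⟩
        have := hs hc
        exact hkey c this.1 this.2 hcE
      intro c hc
      exact h2 (h1 hc)
    have ht : ∀ t : ℝ, 0 < t → t < s → t ≤ K / ‖κ‖ * r ^ e := by
      intro t ht0 hts
      obtain ⟨v, hv⟩ : ∃ v : ℂ, v = (starRingEnd ℂ) κ / ‖κ‖ := ⟨_, rfl⟩
      have hvn : ‖v‖ = 1 := by
        rw [hv, norm_div, Complex.norm_real, norm_norm, RCLike.norm_conj, div_self hκn.ne']
      have hκv : κ * v = ‖κ‖ := by
        rw [hv, mul_div_assoc', mul_conj, normSq_eq_norm_sq]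
        push_cast
        field_simp
      have m1 : c₁ + t * v ∈ ball c₁ s := by
        rw [mem_ball, dist_eq_norm, add_sub_cancel_left, norm_mul, hvn, mul_one, Complex.norm_real,
          Real.norm_eq_abs, abs_of_pos ht0]
        exact hts
      have m2 : c₁ - t * v ∈ ball c₁ s := by
        rw [mem_ball, dist_eq_norm, sub_sub_cancel_left, norm_neg, norm_mul, hvn, mul_one,
          Complex.norm_real, Real.norm_eq_abs, abs_of_pos ht0]
        exact hts
      have a1 := (abs_le.1 (hall _ m1)).2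
      have a2 := (abs_le.1 (hall _ m2)).1
      have e1 : (κ * (c₁ + t * v - c₀)).re = (κ * (c₁ - c₀)).re + t * ‖κ‖ := by
        rw [show κ * (c₁ + t * v - c₀) = κ * (c₁ - c₀) + t * (κ * v) by ring, hκv, add_re]
        congr 1
        rw [← ofReal_mul, ofReal_re]
      have e2 : (κ * (c₁ - t * v - c₀)).re = (κ * (c₁ - c₀)).re - t * ‖κ‖ := by
        rw [show κ * (c₁ - t * v - c₀) = κ * (c₁ - c₀) - t * (κ * v) by ring, hκv, sub_re]
        congr 1
        rw [← ofReal_mul, ofReal_re]
      rw [e1] at a1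
      rw [e2] at a2
      rw [div_mul_eq_mul_div, le_div_iff₀ hκn]
      linarith
    have h3 : s ≤ K / ‖κ‖ * r ^ e := by
      by_contra hcon
      push Not at hcon
      have hpos : 0 < K / ‖κ‖ * r ^ e := by positivity
      have := ht ((K / ‖κ‖ * r ^ e + s) / 2) (by linarith) (by linarith)
      linarith
    refine h3.trans ?_
    have hpos : 0 < K / ‖κ‖ * r ^ e := by positivity
    nlinarith

end Pool.Agent.Y151.PC
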