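import Pool.Agent.Y811.PC.Stm6

/-!
# The strip in the parameter plane
-/

set_option autoImplicit false

namespace Pool.Agent.Y151.PC

open Complex Metric Set Filter Topology MeasureTheory Pool.Agent.Y811.PC

/-- Taylor's formula of order two for analytic functions. -/
theorem second_order {F : ℂ → ℂ} {c₀ κ' : ℂ} (hF : AnalyticAt ℂ F c₀) (hd : HasDerivAt F κ' c₀)
    (h0 : F c₀ = 0) : ∃ C : ℝ, 0 < C ∧ ∀ᶠ c in 𝓝 c₀,
      ‖F c - κ' * (c - c₀)‖ ≤ C * ‖c - c₀‖ ^ 2 ∧ ‖F c‖ ≤ C * ‖c - c₀‖ := by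
  obtain ⟨p, hp⟩ := hF
  have hg := (HasFPowerSeriesAt.has_fpower_series_dslope_fslope hp).differentiableAt
  obtain ⟨C1, hC1⟩ := hg.isBigO_sub.bound
  obtain ⟨C2, hC2⟩ := (hp.differentiableAt.isBigO_sub).bound
  refine ⟨max (max C1 C2) 1, lt_of_lt_of_le one_pos (le_max_right _ _), ?_⟩
  filter_upwards [hC1, hC2] with c h1 h2
  have e1 : F c - κ' * (c - c₀) = (c - c₀) * (dslope F c₀ c - dslope F c₀ c₀) := by
    have h3 := sub_smul_dslope F c₀ c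
    rw [smul_eq_mul, h0, sub_zero] at h3
    rw [dslope_same, hd.deriv]
    linear_combination -h3
  constructor
  · rw [e1, norm_mul]
    calc ‖c - c₀‖ * ‖dslope F c₀ c - dslope F c₀ c₀‖ ≤ ‖c - c₀‖ * (C1 * ‖c - c₀‖) :=
          mul_le_mul_of_nonneg_left h1 (norm_nonneg _)
      _ = C1 * ‖c - c₀‖ ^ 2 := by ring
      _ ≤ max (max C1 C2) 1 * ‖c - c₀‖ ^ 2 :=
          mul_le_mul_of_nonneg_right ((le_max_left _ _).trans (le_max_left _ _)) (sq_nonneg _)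
  · rw [h0, sub_zero] at h2
    exact h2.trans (mul_le_mul_of_nonneg_right ((le_max_right _ _).trans (le_max_left _ _))
      (norm_nonneg _))

theorem t_THIN (h : S_AIDX) (hA : S_ANA) : S_THIN := by
  intro d m q c₀ z₀ hPD al κ hal hal0 hfix hder hκ
  obtain ⟨K, ε, hK, hε, hbd⟩ := h d m q c₀ z₀ hPD al hal hal0 hfix
  have hmuA : AnalyticAt ℂ (fun c => mu d m c (al c)) c₀ := by
    have h1 := (hA d m c₀ z₀).2
    have h2 : AnalyticAt ℂ (fun c => (c, al c)) c₀ := analyticAt_id.prod hal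
    exact AnalyticAt.comp_of_eq h1 h2 (by rw [hal0])
  obtain ⟨F, hFdef⟩ : ∃ F : ℂ → ℂ, F = fun c => 1 - mu d m c (al c) ^ q := ⟨_, rfl⟩
  have hFA : AnalyticAt ℂ F c₀ := by
    rw [hFdef]
    exact analyticAt_const.sub (hmuA.pow q)
  have hF0 : F c₀ = 0 := by
    rw [hFdef]
    show 1 - mu d m c₀ (al c₀) ^ q = 0
    rw [hal0, hPD.mul.pow_eq_one, sub_self]
  have hq : q ≠ 0 := by have := hPD.hq; omega
  have hmu0 : mu d m c₀ (al c₀) ≠ 0 := by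
    rw [hal0]
    exact hPD.mul.isUnit hq |>.ne_zero
  obtain ⟨κ', hκ'⟩ : ∃ κ' : ℂ, κ' = -((q : ℂ) * mu d m c₀ (al c₀) ^ (q - 1) * κ) := ⟨_, rfl⟩
  have hκ'0 : κ' ≠ 0 := by
    rw [hκ']
    exact neg_ne_zero.2 (mul_ne_zero (mul_ne_zero (Nat.cast_ne_zero.2 hq) (pow_ne_zero _ hmu0)) hκ)
  have hFd : HasDerivAt F κ' c₀ := by
    rw [hFdef, hκ']
    exact (hder.pow q).const_sub 1
  obtain ⟨C, hC, hev⟩ := second_order hFA hFd hF0
  obtain ⟨δ, hδ, hball⟩ := Metric.eventually_nhds_iff_ball.1 hev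
  refine ⟨κ', C + K * C ^ 2, min ε δ, hκ'0, by positivity, lt_min hε hδ, ?_⟩
  intro c hc h1 h2
  have hcε : c ∈ ball c₀ ε := ball_subset_ball (min_le_left _ _) hc
  have hcδ : c ∈ ball c₀ δ := ball_subset_ball (min_le_right _ _) hc
  have h3 := hbd c hcε h1 h2
  obtain ⟨h4, h5⟩ := hball c hcδ
  have hFc : 1 - mu d m c (al c) ^ q = F c := by rw [hFdef]
  rw [hFc] at h3
  have h6 : |(F c).re| ≤ K * ‖F c‖ ^ 2 := by
    by_cases hF : F c = 0
    · rw [hF]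
      simp
    · rw [one_div, inv_re, abs_div, abs_of_nonneg (normSq_nonneg _), div_le_iff₀
        (normSq_pos.2 hF), normSq_eq_norm_sq] at h3
      exact h3
  have h7 : |(κ' * (c - c₀)).re| ≤ |(F c).re| + ‖F c - κ' * (c - c₀)‖ := by
    have e1 : (κ' * (c - c₀)).re = (F c).re - (F c - κ' * (c - c₀)).re := by
      rw [sub_re (F c)]
      ring
    rw [e1]
    exact (abs_sub _ _).trans (add_le_add_right (abs_re_le_norm _) _)
  have h8 : ‖F c‖ ^ 2 ≤ C ^ 2 * ‖c - c₀‖ ^ 2 := by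
    rw [← mul_pow]
    exact pow_le_pow_left₀ (norm_nonneg _) h5 2
  rw [show (2 : ℝ) = ((2 : ℕ) : ℝ) by norm_num, Real.rpow_natCast]
  have h9 := mul_le_mul_of_nonneg_left h8 hK.le
  calc |(κ' * (c - c₀)).re| ≤ |(F c).re| + ‖F c - κ' * (c - c₀)‖ := h7
    _ ≤ K * (C ^ 2 * ‖c - c₀‖ ^ 2) + C * ‖c - c₀‖ ^ 2 := add_le_add (h6.trans h9) h4
    _ = (C + K * C ^ 2) * ‖c - c₀‖ ^ 2 := by ring

end Pool.Agent.Y151.PC
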