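import Pool.Agent.Y151.PC.LAW

/-!
# The sharp modulus at the points of the circle over the parameter
-/

set_option autoImplicit false

namespace Pool.Agent.Y151.PC

open Set Filter Topology Pool.Agent.Y811.PC

/-- The sharp modulus. -/
theorem t_EXT : S_EXT := by
  intro d m q c₀ z₀ ε₀ hPD hR ψ F hψ hF hFψ
  have hA := const_pos hPD
  set A : ℝ := 2 * Real.pi * m * Real.log d / q with hAdef
  obtain ⟨hε₀, hR1, hR2⟩ := hR
  refine ⟨?_, ?_⟩
  · intro ζ hζ hFζ δ hδ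
    obtain ⟨r₀, hr₀, h1⟩ := hR1 δ hδ
    have hc : ContinuousWithinAt F {w : ℂ | 1 ≤ ‖w‖} ζ := hF ζ (by
      rw [mem_setOf_eq]
      exact hζ.ge)
    rw [Metric.continuousWithinAt_iff] at hc
    obtain ⟨η₁, hη₁, hc⟩ := hc ε₀ hε₀
    refine ⟨min η₁ (Real.exp (-(A / r₀))), lt_min hη₁ (Real.exp_pos _), ?_⟩
    intro w hw hwζ α hα hG
    have hw1 : ‖w - ζ‖ < η₁ := lt_of_lt_of_le hwζ (min_le_left _ _)
    have hw2 : ‖w - ζ‖ < Real.exp (-(A / r₀)) := lt_of_lt_of_le hwζ (min_le_right _ _)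
    have hψw : ‖ψ w - c₀‖ ≤ ε₀ := by
      have h := hc (x := w) (by rw [mem_setOf_eq]; exact hw.le) (by rw [dist_eq_norm]; exact hw1)
      rw [dist_eq_norm, hFψ w hw, hFζ] at h
      exact h.le
    by_cases hr : ‖mu d m (ψ w) α - mu d m c₀ z₀‖ ≤ r₀
    · exact h1 ψ hψ w α hw hψw hα hG hr
    · push Not at hr
      have hx : 0 < ‖w‖ - 1 := by linarith
      have hx2 : ‖w‖ - 1 ≤ ‖w - ζ‖ := by
        rw [← hζ]
        exact norm_sub_norm_le w ζ
      have hlog : A / r₀ ≤ Real.log (1 / (‖w‖ - 1)) := by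
        rw [one_div, Real.log_inv]
        have h3 : Real.log (‖w‖ - 1) ≤ -(A / r₀) :=
          (Real.log_le_iff_le_exp hx).2 (hx2.trans hw2.le)
        linarith
      have h0 : 0 ≤ A / r₀ := by positivity
      have h4 : r₀ * (A / r₀) ≤ ‖mu d m (ψ w) α - mu d m c₀ z₀‖ * Real.log (1 / (‖w‖ - 1)) :=
        mul_le_mul hr.le hlog h0 (norm_nonneg _)
      have h5 : r₀ * (A / r₀) = A := by field_simp
      linarith
  · obtain ⟨r₁, hr₁, h1⟩ := hR1 (A / 2) (by linarith)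
    have key : ∀ k : ℕ, ∃ w α : ℂ, 1 < ‖w‖ ∧ ‖w‖ - 1 ≤ Real.exp (-((A / 2) * (k + 1))) ∧
        ‖ψ w - c₀‖ ≤ 1 / ((k : ℝ) + 1) ∧ ‖α - z₀‖ ≤ 1 / ((k : ℝ) + 1) ∧ G d m (ψ w) α = α ∧
        ‖mu d m (ψ w) α - mu d m c₀ z₀‖ * Real.log (1 / (‖w‖ - 1)) ≤ A + 1 / ((k : ℝ) + 1) := by
      intro k
      have hk : (0 : ℝ) < 1 / ((k : ℝ) + 1) := by positivity
      obtain ⟨r₂, hr₂, h2⟩ := hR2 (1 / ((k : ℝ) + 1)) (min (1 / ((k : ℝ) + 1)) ε₀) hk
        (lt_min hk hε₀)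
      obtain ⟨r, hr, hra, hrb, hrc⟩ : ∃ r : ℝ, 0 < r ∧ r ≤ r₁ ∧ r ≤ r₂ ∧
          r ≤ 1 / ((k : ℝ) + 1) :=
        ⟨min r₁ (min r₂ (1 / ((k : ℝ) + 1))), lt_min hr₁ (lt_min hr₂ hk), min_le_left _ _,
          (min_le_right _ _).trans (min_le_left _ _),
          (min_le_right _ _).trans (min_le_right _ _)⟩
      obtain ⟨w, α, hw, hψw, hα, hG, hmu, hlog⟩ := h2 r hr hrb ψ hψ
      have h3 := h1 ψ hψ w α hw (hψw.trans (min_le_right _ _)) (hα.trans (min_le_right _ _)) hG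
        (hmu.trans hra)
      have hx : 0 < ‖w‖ - 1 := by linarith
      have h4 : 0 < Real.log (1 / (‖w‖ - 1)) := by
        by_contra hc
        have h5 : ‖mu d m (ψ w) α - mu d m c₀ z₀‖ * Real.log (1 / (‖w‖ - 1)) ≤ 0 :=
          mul_nonpos_of_nonneg_of_nonpos (norm_nonneg _) (not_lt.1 hc)
        linarith
      refine ⟨w, α, hw, ?_, hψw.trans (min_le_left _ _), hα.trans (min_le_left _ _), hG, ?_⟩
      · rw [← Real.log_le_iff_le_exp hx]
        have h6 : A - A / 2 ≤ 1 / ((k : ℝ) + 1) * Real.log (1 / (‖w‖ - 1)) :=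
          h3.trans (mul_le_mul_of_nonneg_right (hmu.trans hrc) h4.le)
        rw [one_div ((k : ℝ) + 1), inv_mul_eq_div, le_div_iff₀ (by positivity), one_div,
          Real.log_inv] at h6
        linarith
      · exact (mul_le_mul_of_nonneg_right hmu h4.le).trans hlog
    choose w α hw hw2 hψw hα hG hlog using key
    have hexp : Tendsto (fun k : ℕ => Real.exp (-((A / 2) * (k + 1)))) atTop (𝓝 0) := by
      refine Real.tendsto_exp_neg_atTop_nhds_zero.comp ?_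
      refine Tendsto.const_mul_atTop (by linarith) ?_
      exact tendsto_atTop_add_const_right _ _ tendsto_natCast_atTop_atTop
    have hinv : Tendsto (fun k : ℕ => 1 / ((k : ℝ) + 1)) atTop (𝓝 0) :=
      tendsto_one_div_add_atTop_nhds_zero_nat
    have hle1 : ∀ k, ‖w k‖ ≤ 2 := by
      intro k
      have h3 : Real.exp (-((A / 2) * (k + 1))) ≤ 1 := by
        rw [Real.exp_le_one_iff]
        have : 0 ≤ (A / 2) * ((k : ℝ) + 1) := by positivity
        linarith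
      linarith [hw2 k]
    obtain ⟨ζ, hζK, φ, hφ, hlim⟩ := (isCompact_closedBall (0 : ℂ) 2).tendsto_subseq
      (x := w) fun k => by
        rw [mem_closedBall_zero_iff]
        exact hle1 k
    have hφt := hφ.tendsto_atTop
    have hnorm : Tendsto (fun k => ‖w (φ k)‖) atTop (𝓝 ‖ζ‖) := hlim.norm
    have hnorm1 : Tendsto (fun k => ‖w k‖) atTop (𝓝 1) := by
      have h3 : Tendsto (fun k : ℕ => 1 + Real.exp (-((A / 2) * (k + 1)))) atTop (𝓝 (1 + 0)) :=
        tendsto_const_nhds.add hexp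
      rw [add_zero] at h3
      refine tendsto_of_tendsto_of_tendsto_of_le_of_le tendsto_const_nhds h3
        (fun k => (hw k).le) fun k => ?_
      have := hw2 k
      simp only
      linarith
    have hζ : ‖ζ‖ = 1 := tendsto_nhds_unique hnorm (hnorm1.comp hφt)
    have hFζ : F ζ = c₀ := by
      have h3 : ContinuousWithinAt F {w : ℂ | 1 ≤ ‖w‖} ζ := hF ζ (by
        rw [mem_setOf_eq]
        exact hζ.ge)
      have h4 : Tendsto (fun k => w (φ k)) atTop (𝓝[{w : ℂ | 1 ≤ ‖w‖}] ζ) := by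
        rw [tendsto_nhdsWithin_iff]
        exact ⟨hlim, Eventually.of_forall fun k => (hw _).le⟩
      have h5 : Tendsto (fun k => F (w (φ k))) atTop (𝓝 (F ζ)) := h3.tendsto.comp h4
      have h6 : Tendsto (fun k => ψ (w k)) atTop (𝓝 c₀) := by
        rw [tendsto_iff_norm_sub_tendsto_zero]
        exact squeeze_zero (fun _ => norm_nonneg _) hψw hinv
      have h7 : (fun k => F (w (φ k))) = (fun k => ψ (w k)) ∘ φ := by
        ext k
        exact hFψ _ (hw _)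
      rw [h7] at h5
      exact tendsto_nhds_unique h5 (h6.comp hφt)
    refine ⟨ζ, hζ, hFζ, fun δ η hδ hη => ?_⟩
    have e1 : ∀ᶠ k in atTop, ‖w (φ k) - ζ‖ < η := by
      have h3 := tendsto_iff_norm_sub_tendsto_zero.1 hlim
      exact (tendsto_order.1 h3).2 η hη
    have e2 : ∀ᶠ k in atTop, 1 / ((φ k : ℝ) + 1) < η :=
      (tendsto_order.1 (hinv.comp hφt)).2 η hη
    have e3 : ∀ᶠ k in atTop, 1 / ((φ k : ℝ) + 1) < δ :=
      (tendsto_order.1 (hinv.comp hφt)).2 δ hδ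
    obtain ⟨k, hk1, hk2, hk3⟩ := (e1.and (e2.and e3)).exists
    exact ⟨w (φ k), α (φ k), hw _, hk1, (hα _).trans_lt hk2, hG _,
      (hlog _).trans (by linarith)⟩

end Pool.Agent.Y151.PC
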