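import Pool.Agent.Y811.PC.Stm

/-!
# The limit law
-/

set_option autoImplicit false

namespace Pool.Agent.Y151.PC

open Set Filter Topology Pool.Agent.Y811.PC

/-- A limit law for suprema. -/
theorem law_aux (S : ℝ → Set ℝ) (g : ℝ → ℝ) (A : ℝ) (hA : 0 < A)
    (hg : ∀ r, 0 < r → 0 < g r)
    (h : ∀ δ : ℝ, 0 < δ → ∃ r₀ : ℝ, 0 < r₀ ∧ ∀ r, 0 < r → r ≤ r₀ →
      (∀ x ∈ S r, 0 < x ∧ A - δ ≤ g r * Real.log (1 / x)) ∧
      ∃ x ∈ S r, g r * Real.log (1 / x) ≤ A + δ) :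
    Tendsto (fun r : ℝ => g r * Real.log (1 / sSup (S r))) (𝓝[>] 0) (𝓝 A) := by
  rw [Metric.tendsto_nhds]
  intro ε hε
  obtain ⟨δ, hδ, hδε⟩ : ∃ δ : ℝ, 0 < δ ∧ δ < ε := ⟨ε / 2, by linarith, by linarith⟩
  obtain ⟨r₀, hr₀, hr⟩ := h δ hδ
  have hev : ∀ᶠ r : ℝ in 𝓝[>] 0, r ∈ Ioc (0 : ℝ) r₀ := Ioc_mem_nhdsGT hr₀
  filter_upwards [hev] with r hrr
  obtain ⟨h1, x, hxS, hx⟩ := hr r hrr.1 hrr.2
  have hgr := hg r hrr.1
  have hx0 : 0 < x := (h1 x hxS).1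
  have hup : ∀ y ∈ S r, y ≤ Real.exp (-((A - δ) / g r)) := by
    intro y hy
    obtain ⟨hy0, hy1⟩ := h1 y hy
    rw [← Real.log_le_iff_le_exp hy0]
    rw [one_div, Real.log_inv] at hy1
    have : (A - δ) / g r ≤ -Real.log y := by
      rw [div_le_iff₀ hgr]
      linarith [mul_comm (g r) (-Real.log y)]
    linarith
  have hbdd : BddAbove (S r) := ⟨_, fun y hy => hup y hy⟩
  have hle : x ≤ sSup (S r) := le_csSup hbdd hxS
  have hpos : 0 < sSup (S r) := lt_of_lt_of_le hx0 hle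
  have hsup : sSup (S r) ≤ Real.exp (-((A - δ) / g r)) := csSup_le ⟨x, hxS⟩ hup
  have e1 : Real.log (1 / sSup (S r)) = -Real.log (sSup (S r)) := by
    rw [one_div, Real.log_inv]
  have e2 : Real.log (1 / x) = -Real.log x := by
    rw [one_div, Real.log_inv]
  rw [e2] at hx
  rw [e1, Real.dist_eq, abs_lt]
  have h3 : Real.log (sSup (S r)) ≤ -((A - δ) / g r) := (Real.log_le_iff_le_exp hpos).2 hsup
  have h4 : Real.log x ≤ Real.log (sSup (S r)) := Real.log_le_log hx0 hle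
  have h5 : A - δ ≤ g r * -Real.log (sSup (S r)) := by
    have h6 : (A - δ) / g r ≤ -Real.log (sSup (S r)) := by linarith
    rw [div_le_iff₀ hgr] at h6
    linarith [mul_comm (g r) (-Real.log (sSup (S r)))]
  have h7 : g r * -Real.log (sSup (S r)) ≤ g r * -Real.log x :=
    mul_le_mul_of_nonneg_left (by linarith) hgr.le
  constructor <;> linarith

/-- The constant is positive. -/
theorem const_pos {d m q : ℕ} {c₀ z₀ : ℂ} (h : PD d m q c₀ z₀) :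
    0 < 2 * Real.pi * m * Real.log d / q := by
  have h1 : (0 : ℝ) < m := by exact_mod_cast h.hm
  have h2 : (0 : ℝ) < q := by exact_mod_cast h.hq
  have h3 : 0 < Real.log d := Real.log_pos (by exact_mod_cast h.hd)
  positivity

/-- The limit law. -/
theorem t_LAW : S_LAW := by
  intro d m q c₀ z₀ ε₀ hPD hR ψ hψ ε' hε' hε'₀
  have hA := const_pos hPD
  set A : ℝ := 2 * Real.pi * m * Real.log d / q with hAdef
  obtain ⟨hε₀, hR1, hR2⟩ := hR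
  refine law_aux _ (fun r => r) A hA (fun r hr => hr) fun δ hδ => ?_
  obtain ⟨δ', hδ', hδA, hδδ⟩ : ∃ δ' : ℝ, 0 < δ' ∧ δ' < A ∧ δ' ≤ δ :=
    ⟨min δ (A / 2), lt_min hδ (by linarith), (min_le_right _ _).trans_lt (by linarith),
      min_le_left _ _⟩
  obtain ⟨r₁, hr₁, h1⟩ := hR1 δ' hδ'
  obtain ⟨r₂, hr₂, h2⟩ := hR2 δ' ε' hδ' hε'
  refine ⟨min r₁ r₂, lt_min hr₁ hr₂, fun r hr hrr => ⟨?_, ?_⟩⟩
  · rintro x ⟨w, α, hw, rfl, hψw, hα, hG, hmu⟩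
    have hx : 0 < ‖w‖ - 1 := by linarith
    refine ⟨hx, ?_⟩
    have h3 := h1 ψ hψ w α hw (hψw.trans hε'₀) (hα.trans hε'₀) hG
      (hmu.trans (hrr.trans (min_le_left _ _)))
    have h4 : 0 < Real.log (1 / (‖w‖ - 1)) := by
      by_contra hc
      have h5 : ‖mu d m (ψ w) α - mu d m c₀ z₀‖ * Real.log (1 / (‖w‖ - 1)) ≤ 0 :=
        mul_nonpos_of_nonneg_of_nonpos (norm_nonneg _) (not_lt.1 hc)
      linarith
    have h6 : ‖mu d m (ψ w) α - mu d m c₀ z₀‖ * Real.log (1 / (‖w‖ - 1)) ≤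
        r * Real.log (1 / (‖w‖ - 1)) := mul_le_mul_of_nonneg_right hmu h4.le
    linarith
  · obtain ⟨w, α, hw, hψw, hα, hG, hmu, hlog⟩ := h2 r hr (hrr.trans (min_le_right _ _)) ψ hψ
    exact ⟨‖w‖ - 1, ⟨w, α, hw, rfl, hψw, hα, hG, hmu⟩, hlog.trans (by linarith)⟩

end Pool.Agent.Y151.PC
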