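import Pool.Agent.Y811.PC.Stm

/-!
# The algebra of the normal form
-/

set_option autoImplicit false

namespace Pool.Agent.Y151.PC

open Polynomial

section

variable {R : Type} [CommRing R]

/-- Powers of `lam X + X ^ 2 g₂`. -/
theorem pow_g (lam : R) (g₂ : R[X]) (n : ℕ) :
    ∃ h : R[X], (C lam * X + X ^ 2 * g₂) ^ n = C (lam ^ n) * X ^ n + X ^ (n + 1) * h := by
  obtain ⟨h, hh⟩ := sub_dvd_pow_sub_pow (C lam + X * g₂) (C lam) n
  refine ⟨g₂ * h, ?_⟩
  have e1 : C lam * X + X ^ 2 * g₂ = X * (C lam + X * g₂) := by ring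
  have e2 : (C lam + X * g₂) ^ n = C lam ^ n + X * g₂ * h := by
    have e3 : (C lam + X * g₂) ^ n - C lam ^ n = X * g₂ * h := by
      rw [hh]
      ring
    rw [← e3]
    ring
  rw [e1, mul_pow, e2, C_pow]
  ring

/-- The induction. -/
theorem nf_step (q : ℕ) (lam : R) (g₂ : R[X])
    (hj : ∀ j, 1 ≤ j → j < q → IsUnit (lam ^ j - 1)) (hl : IsUnit lam) (j : ℕ) (hjq : j < q) :
    ∃ s₁ E : R[X],
      (X ^ q * (1 + X * s₁)).comp (C lam * X + X ^ 2 * g₂) =
        C (lam ^ q) * (X ^ q * (1 + X * s₁)) + X ^ (q + 1 + j) * E := by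
  induction j with
  | zero =>
    obtain ⟨h, hh⟩ := pow_g lam g₂ q
    refine ⟨0, h, ?_⟩
    rw [mul_zero, add_zero, mul_one, pow_comp, X_comp, hh]
  | succ j ih =>
    obtain ⟨s₁, E, h⟩ := ih (by omega)
    obtain ⟨h', hh⟩ := pow_g lam g₂ (q + 1 + j)
    have hu : IsUnit (lam ^ q * (lam ^ (j + 1) - 1)) := (hl.pow q).mul (hj (j + 1) (by omega) hjq)
    obtain ⟨u, hu⟩ := hu
    have hE : C (E.coeff 0) + X * E.divX = E := by
      conv_rhs => rw [← divX_mul_X_add E]
      ring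
    set a : R := -(E.coeff 0 * ((u⁻¹ : Rˣ) : R)) with ha
    have ha2 : E.coeff 0 + a * (lam ^ (q + 1 + j) - lam ^ q) = 0 := by
      have e1 : lam ^ (q + 1 + j) - lam ^ q = (u : R) := by
        rw [hu]
        ring
      rw [e1, ha, neg_mul, mul_assoc, Units.inv_mul, mul_one, add_neg_cancel]
    refine ⟨s₁ + C a * X ^ j, E.divX + C a * h', ?_⟩
    have e2 : X ^ q * (1 + X * (s₁ + C a * X ^ j)) =
        X ^ q * (1 + X * s₁) + C a * X ^ (q + 1 + j) := by ring
    rw [e2, add_comp, h, mul_comp, C_comp, pow_comp, X_comp, hh]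
    have e3 : C a * (C (lam ^ (q + 1 + j)) * X ^ (q + 1 + j)) =
        C (a * lam ^ (q + 1 + j)) * X ^ (q + 1 + j) := by
      rw [C_mul]
      ring
    have e4 : C (lam ^ q) * (C a * X ^ (q + 1 + j)) = C (a * lam ^ q) * X ^ (q + 1 + j) := by
      rw [C_mul]
      ring
    have e5 : C (E.coeff 0) + C (a * lam ^ (q + 1 + j)) - C (a * lam ^ q) = 0 := by
      rw [← C_add, ← C_sub, ← C_0]
      congr 1
      rw [← ha2]
      ring
    calc C (lam ^ q) * (X ^ q * (1 + X * s₁)) + X ^ (q + 1 + j) * E +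
          C a * (C (lam ^ (q + 1 + j)) * X ^ (q + 1 + j) + X ^ (q + 1 + j + 1) * h')
        = C (lam ^ q) * (X ^ q * (1 + X * s₁)) +
            X ^ (q + 1 + j) * (C (E.coeff 0) + X * E.divX) +
            (C (a * lam ^ (q + 1 + j)) * X ^ (q + 1 + j) + C a * X ^ (q + 1 + j + 1) * h') := by
          rw [hE, ← e3]
          ring
      _ = C (lam ^ q) * (X ^ q * (1 + X * s₁)) + C (a * lam ^ q) * X ^ (q + 1 + j) +
            X ^ (q + 1 + (j + 1)) * (E.divX + C a * h') +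
            X ^ (q + 1 + j) *
              (C (E.coeff 0) + C (a * lam ^ (q + 1 + j)) - C (a * lam ^ q)) := by
          ring
      _ = _ := by
          rw [e5, mul_zero, add_zero, ← e4]
          ring

end

/-- The algebra of the normal form. -/
theorem t_NFALG : Pool.Agent.Y811.PC.S_NFALG := by
  intro R _ q lam g₂ hq hj hl
  obtain ⟨s₁, E, h⟩ := nf_step q lam g₂ hj hl (q - 1) (by omega)
  have e1 : q + 1 + (q - 1) = 2 * q := by omega
  rw [e1] at h
  have hE : C (E.coeff 0) + X * E.divX = E := by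
    conv_rhs => rw [← divX_mul_X_add E]
    ring
  refine ⟨s₁, E.divX - C (E.coeff 0) * (2 * s₁ + X * s₁ ^ 2), E.coeff 0, ?_⟩
  rw [h]
  calc C (lam ^ q) * (X ^ q * (1 + X * s₁)) + X ^ (2 * q) * E
      = C (lam ^ q) * (X ^ q * (1 + X * s₁)) + X ^ (2 * q) * (C (E.coeff 0) + X * E.divX) := by
        rw [hE]
    _ = _ := by ring

end Pool.Agent.Y151.PC
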